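import Pool.Agent.H37.CF.Basic

/-!
# Row CHSB of the board `cfm_modules`: the subgroups `Hd` of the ring class group
-/

set_option autoImplicit false

open NumberField
open scoped nonZeroDivisors

namespace Pool.Agent.H21.CF

open Pool.Agent.H31.CN Pool.Agent.H95.CF Pool.Agent.H37.CF

section

variable {K : Type} [Field K] [NumberField K] {f m : ℕ} {a b : 𝓞 K}

theorem rat_inv (hm : m ∣ f) (ha : Rat K f m a) :
    ∃ b, Rat K f m b ∧ a * b - 1 ∈ Ideal.span {(f : 𝓞 K)} := by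
  obtain ⟨h1, n, hn⟩ := ha
  obtain ⟨b, hb, hab⟩ := ex_inv h1
  obtain ⟨x, y, hxy⟩ := int_coprime hm h1 hn
  refine ⟨b, ⟨hb, x, ?_⟩, hab⟩
  have hxy' : (x : 𝓞 K) * n + y * m = 1 := by
    have := congrArg (Int.cast : ℤ → 𝓞 K) hxy
    rwa [Int.cast_add, Int.cast_mul, Int.cast_mul, Int.cast_natCast, Int.cast_one] at this
  have h2 : b - (x : 𝓞 K) = (m : 𝓞 K) * (y * b) + (x * ((a * b - 1) + -(b * (a - n)))) := by
    linear_combination (-b) * hxy'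
  rw [h2]
  refine Ideal.add_mem _ (Ideal.mul_mem_right _ _ (Ideal.mem_span_singleton_self _))
    (Ideal.mul_mem_left _ _ (Ideal.add_mem _ (fspan_mono hm hab) ?_))
  exact (Ideal.neg_mem_iff _).2 (Ideal.mul_mem_left _ _ hn)

theorem rat_ne (ha : Rat K f m a) : a ≠ 0 := pr_ne ha.1

variable {G : Type} [CommGroup G] {cl : Ideal (𝓞 K) → G}

/-- the subgroup of the classes of the numbers congruent to integers modulo `m` -/
def sg (h : RG K f G cl) (hm : m ∣ f) : Subgroup G where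
  carrier := {g | ∃ a : 𝓞 K, Rat K f m a ∧ cl (Ideal.span {a}) = g}
  one_mem' := ⟨1, rat_one, by rw [Ideal.span_singleton_one, cl_top h]⟩
  mul_mem' := by
    rintro _ _ ⟨a, ha, rfl⟩ ⟨b, hb, rfl⟩
    exact ⟨a * b, rat_mul ha hb, cl_span_mul h ha.1 hb.1⟩
  inv_mem' := by
    rintro _ ⟨a, ha, rfl⟩
    obtain ⟨b, hb, hab⟩ := rat_inv hm ha
    refine ⟨b, hb, ?_⟩
    rw [eq_inv_iff_mul_eq_one, mul_comm, ← cl_span_mul h ha.1 hb.1]
    exact cl_rat h ⟨pr_span_mul.2 ⟨ha.1, hb.1⟩, 1, by rwa [Int.cast_one]⟩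

theorem mem_sg (h : RG K f G cl) (hm : m ∣ f) (g : G) :
    g ∈ sg h hm ↔ ∃ a : 𝓞 K, Rat K f m a ∧ cl (Ideal.span {a}) = g := Iff.rfl

theorem sg_mono (h : RG K f G cl) {d : ℕ} (hm : m ∣ f) (hd : d ∣ m) :
    sg h hm ≤ sg h (hd.trans hm) := by
  rintro g ⟨a, ha, rfl⟩
  exact ⟨a, rat_mono hd ha, rfl⟩

theorem sg_self (h : RG K f G cl) : sg h (dvd_refl f) = ⊥ := by
  rw [eq_bot_iff]
  rintro g ⟨a, ha, rfl⟩
  rw [Subgroup.mem_bot]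
  exact cl_rat h ha

theorem ex_ne (hf : 1 ≤ f) (a : 𝓞 K) : ∃ a' : 𝓞 K, a' ≠ 0 ∧ a' - a ∈ Ideal.span {(f : 𝓞 K)} := by
  by_cases ha : a = 0
  · refine ⟨f, ?_, ?_⟩
    · have : f ≠ 0 := by omega
      exact_mod_cast this
    · rw [ha, sub_zero]
      exact Ideal.mem_span_singleton_self _
  · exact ⟨a, ha, by rw [sub_self]; exact Ideal.zero_mem _⟩

/-- the decomposition of a class -/
theorem sg_split (h : RG K f G cl) (hf : 1 ≤ f) {d₁ d₂ g₁ g₂ : ℕ}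
    (hfd : f = (d₁ * g₁) * (d₂ * g₂)) (hco : (d₁ * g₁).Coprime (d₂ * g₂))
    (h0 : g₁ * g₂ ∣ f) (h1 : g₁ * (d₂ * g₂) ∣ f) (h2 : (d₁ * g₁) * g₂ ∣ f) :
    sg h h0 ≤ sg h h1 ⊔ sg h h2 := by
  rintro _ ⟨a, ha, rfl⟩
  obtain ⟨b, hb, hab⟩ := ex_inv ha.1
  obtain ⟨hpa, n, hn⟩ := ha
  obtain ⟨c, hc⟩ := mem_fspan.1 hn
  obtain ⟨x, y, hxy⟩ := Nat.isCoprime_iff_coprime.2 hco
  have hxy' : (x : 𝓞 K) * (d₁ * g₁) + y * (d₂ * g₂) = 1 := by
    have := congrArg (Int.cast : ℤ → 𝓞 K) hxy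
    push_cast at this
    exact this
  have hf' : (f : 𝓞 K) = (d₁ * g₁) * (d₂ * g₂) := by
    rw [hfd]
    push_cast
    rfl
  obtain ⟨a₁, ha₁, hc₁⟩ := ex_ne (K := K) hf (((y : 𝓞 K) * (d₂ * g₂)) * a + (x : 𝓞 K) * (d₁ * g₁))
  obtain ⟨a₂, ha₂, hc₂⟩ := ex_ne (K := K) hf (((x : 𝓞 K) * (d₁ * g₁)) * a + (y : 𝓞 K) * (d₂ * g₂))
  obtain ⟨u₁, hu₁⟩ := mem_fspan.1 hc₁
  obtain ⟨u₂, hu₂⟩ := mem_fspan.1 hc₂
  have e1 : a₁ = (y : 𝓞 K) * ((d₂ : 𝓞 K) * g₂) * a + (x : 𝓞 K) * ((d₁ : 𝓞 K) * g₁) + (f : 𝓞 K) * u₁ := by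
    linear_combination hu₁
  have e2 : a₂ = (x : 𝓞 K) * ((d₁ : 𝓞 K) * g₁) * a + (y : 𝓞 K) * ((d₂ : 𝓞 K) * g₂) + (f : 𝓞 K) * u₂ := by
    linear_combination hu₂
  have hmul : a₁ * a₂ - a ∈ Ideal.span {(f : 𝓞 K)} := by
    rw [mem_fspan]
    refine ⟨x * y * (a - 1) ^ 2 + (((y : 𝓞 K) * (d₂ * g₂)) * a + (x : 𝓞 K) * (d₁ * g₁)) * u₂ +
      (((x : 𝓞 K) * (d₁ * g₁)) * a + (y : 𝓞 K) * (d₂ * g₂)) * u₁ + f * u₁ * u₂, ?_⟩
    rw [e1, e2]
    linear_combination (-(x * y * (a - 1) ^ 2)) * hf' +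
      a * ((x : 𝓞 K) * (d₁ * g₁) + y * (d₂ * g₂) + 1) * hxy'
  obtain ⟨w, hw⟩ := mem_fspan.1 hmul
  obtain ⟨z, hz⟩ := mem_fspan.1 hab
  have hp₁ : Pr K f (Ideal.span {a₁}) := by
    refine pr_of_inv (b := a₂ * b) ha₁ (mem_fspan.2 ⟨w * b + z, ?_⟩)
    linear_combination b * hw + hz
  have hp₂ : Pr K f (Ideal.span {a₂}) := by
    refine pr_of_inv (b := a₁ * b) ha₂ (mem_fspan.2 ⟨w * b + z, ?_⟩)
    linear_combination b * hw + hz
  have hcl : cl (Ideal.span {a}) = cl (Ideal.span {a₁}) * cl (Ideal.span {a₂}) := by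
    rw [← cl_span_mul h hp₁ hp₂]
    symm
    refine cl_congr h (pr_span_mul.2 ⟨hp₁, hp₂⟩) hpa (r := 1) ?_
    rwa [Int.cast_one, one_mul]
  rw [hcl]
  refine Subgroup.mul_mem_sup ⟨a₁, ⟨hp₁, y * (d₂ * g₂) * n + x * (d₁ * g₁), ?_⟩, rfl⟩
    ⟨a₂, ⟨hp₂, x * (d₁ * g₁) * n + y * (d₂ * g₂), ?_⟩, rfl⟩
  · rw [mem_fspan]
    refine ⟨y * g₂ * c + d₁ * u₁, ?_⟩
    push_cast at hc ⊢
    rw [e1, hf']
    linear_combination ((y : 𝓞 K) * (d₂ * g₂)) * hc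
  · rw [mem_fspan]
    refine ⟨x * g₁ * c + d₂ * u₂, ?_⟩
    push_cast at hc ⊢
    rw [e2, hf']
    linear_combination ((x : 𝓞 K) * (d₁ * g₁)) * hc

theorem nat_split (d f : ℕ) (hf : 1 ≤ f) : ∃ f₁ f₂ k, f = f₁ * f₂ ∧ f₁.Coprime d ∧ f₂ ∣ d ^ k := by
  induction f using Nat.strong_induction_on with
  | _ f ih =>
    obtain ⟨g, hg⟩ : ∃ g, g = f.gcd d := ⟨_, rfl⟩
    by_cases hg' : g = 1
    · exact ⟨f, 1, 0, by simp, hg.symm.trans hg', by simp⟩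
    · have hg1 : g ∣ f := hg ▸ Nat.gcd_dvd_left _ _
      have hg2 : g ∣ d := hg ▸ Nat.gcd_dvd_right _ _
      have hg0 : 0 < g := hg ▸ Nat.gcd_pos_of_pos_left _ (by omega)
      clear hg
      obtain ⟨f', rfl⟩ := hg1
      have hf'0 : 1 ≤ f' := by
        rcases Nat.eq_zero_or_pos f' with h0 | h0
        · rw [h0, mul_zero] at hf
          omega
        · exact h0
      have hlt : f' < g * f' := by
        have : 2 ≤ g := by omega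
        nlinarith
      obtain ⟨f₁, f₂, k, h1, h2, h3⟩ := ih f' hlt hf'0
      refine ⟨f₁, g * f₂, k + 1, ?_, h2, ?_⟩
      · rw [h1]
        ring
      · rw [pow_succ, mul_comm (d ^ k)]
        exact mul_dvd_mul hg2 h3

/-- (HSB) the subgroups `Hd`. -/
theorem pf_HSB (hEQP : T_EQP) : T_HSB := by
  classical
  intro K _ _ D f G _ cl hK hf hRG
  have hdvd : ∀ {d : ℕ}, d ∣ f → f / d ∣ f := fun h => Nat.div_dvd_of_dvd h
  refine ⟨fun d => if h : d ∣ f then sg hRG (hdvd h) else ⊥, ?_, ?_, ?_⟩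
  · intro d hd
    simp only [dif_pos hd]
    rfl
  · simp only [dif_pos (one_dvd f)]
    rw [eq_bot_iff]
    rintro g ⟨a, ha, rfl⟩
    rw [Nat.div_one] at ha
    rw [Subgroup.mem_bot]
    exact cl_rat hRG ha
  · intro d₁ d₂ hd hco
    have hd1 : d₁ ∣ f := (dvd_mul_right _ _).trans hd
    have hd2 : d₂ ∣ f := (dvd_mul_left _ _).trans hd
    simp only [dif_pos hd, dif_pos hd1, dif_pos hd2]
    obtain ⟨f₁, f₂, k, h1, h2, h3⟩ := nat_split d₂ f hf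
    have hf12 : f₁.Coprime f₂ := Nat.Coprime.coprime_dvd_right h3 (Nat.Coprime.pow_right k h2)
    have hdf1 : d₁ ∣ f₁ := by
      have h4 : d₁.Coprime f₂ := Nat.Coprime.coprime_dvd_right h3 (Nat.Coprime.pow_right k hco)
      exact h4.dvd_of_dvd_mul_right (h1 ▸ hd1)
    have hdf2 : d₂ ∣ f₂ := h2.symm.dvd_of_dvd_mul_left (h1 ▸ hd2)
    obtain ⟨g₁, hg₁⟩ := hdf1
    obtain ⟨g₂, hg₂⟩ := hdf2
    have hd10 : 0 < d₁ := Nat.pos_of_dvd_of_pos hd1 hf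
    have hd20 : 0 < d₂ := Nat.pos_of_dvd_of_pos hd2 hf
    rw [hg₁, hg₂] at h1 hf12
    have q0 : f / (d₁ * d₂) = g₁ * g₂ := by
      apply Nat.div_eq_of_eq_mul_right (by positivity)
      rw [h1]
      ring
    have q1 : f / d₁ = g₁ * (d₂ * g₂) := by
      apply Nat.div_eq_of_eq_mul_right hd10
      rw [h1]
      ring
    have q2 : f / d₂ = (d₁ * g₁) * g₂ := by
      apply Nat.div_eq_of_eq_mul_right hd20
      rw [h1]
      ring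
    constructor
    · apply le_antisymm
      · intro g hg
        have h5 := sg_split hRG hf h1 hf12 (q0 ▸ hdvd hd) (q1 ▸ hdvd hd1) (q2 ▸ hdvd hd2)
        have h6 : g ∈ sg hRG (q0 ▸ hdvd hd) := by
          obtain ⟨a, ha, rfl⟩ := hg
          rw [q0] at ha
          exact ⟨a, ha, rfl⟩
        have h7 := h5 h6
        rw [Subgroup.mem_sup] at h7 ⊢
        obtain ⟨y, ⟨a, ha, hay⟩, z, ⟨b, hb, hbz⟩, hyz⟩ := h7
        rw [← q1] at ha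
        rw [← q2] at hb
        exact ⟨y, ⟨a, ha, hay⟩, z, ⟨b, hb, hbz⟩, hyz⟩
      · refine sup_le ?_ ?_
        · rintro g ⟨a, ha, rfl⟩
          refine ⟨a, rat_mono ?_ ha, rfl⟩
          rw [q0, q1]
          exact ⟨d₂, by ring⟩
        · rintro g ⟨a, ha, rfl⟩
          refine ⟨a, rat_mono ?_ ha, rfl⟩
          rw [q0, q2]
          exact ⟨d₁, by ring⟩
    · rw [Subgroup.disjoint_def]
      rintro g ⟨a, ha, hag⟩ ⟨b, hb, hbg⟩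
      obtain ⟨r, -, hr⟩ := (hEQP K D f G cl hK hf hRG a b ha.1 hb.1).1 (by rw [hag, hbg])
      obtain ⟨n, hn⟩ := ha.2
      obtain ⟨l, hl⟩ := hb.2
      rw [q1] at hn
      rw [q2] at hl
      obtain ⟨x, y, hxy⟩ := Nat.isCoprime_iff_coprime.2 hco
      have hxy' : (x : 𝓞 K) * d₁ + y * d₂ = 1 := by
        have := congrArg (Int.cast : ℤ → 𝓞 K) hxy
        push_cast at this
        exact this
      obtain ⟨c₁, hc₁⟩ := mem_fspan.1 hn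
      obtain ⟨c₂, hc₂⟩ := mem_fspan.1 hl
      obtain ⟨c₃, hc₃⟩ := mem_fspan.1 hr
      have hf' : (f : 𝓞 K) = (d₁ * g₁) * (d₂ * g₂) := by
        rw [h1]
        push_cast
        rfl
      rw [← hag]
      refine cl_rat hRG ⟨ha.1, x * d₁ * n + y * d₂ * (r * l), ?_⟩
      rw [mem_fspan]
      refine ⟨x * c₁ + y * d₂ * c₃ + y * r * c₂, ?_⟩
      push_cast at hc₁ hc₂ ⊢
      rw [hf'] at hc₃ ⊢
      linear_combination (-a) * hxy' + (x : 𝓞 K) * d₁ * hc₁ + (y : 𝓞 K) * d₂ * hc₃ +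
        (y : 𝓞 K) * d₂ * r * hc₂

end

end Pool.Agent.H21.CF
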