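import Pool.Agent.H95.CF.Targets
import Pool.Agent.H37.CF.Basic

/-!
# Row PDE2 of the board `cfm_modules`: classes of proportional vectors
-/

set_option autoImplicit false

open NumberField Module MeasureTheory Set Filter
open scoped nonZeroDivisors Real

namespace Pool.Agent.H21.CF

open Pool.Agent.H31.CN Pool.Agent.H95.CF Pool.Agent.H37.CF

/-- ideals with norm prime to `f` -/
theorem pr_of_norm {K : Type} [Field K] [NumberField K] {f N : ℕ} {B : Ideal (𝓞 K)}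
    (hB : Ideal.absNorm B = N) (hN : 1 ≤ N) (h : N.Coprime f) : Pr K f B := by
  refine pr_of_dvd (pr_nat hN h) ?_
  rw [Ideal.dvd_span_singleton, ← hB]
  exact Ideal.absNorm_mem B

/-- the vector `v'` is a multiple of `v` modulo `g` -/
theorem prop_mod {Q : QF} {v v' : ℤ × ℤ} {q r f g d k : ℤ} (h : q * val Q v + r * f = 1)
    (hf : f = g * d) (hk : dt v v' = g * k) :
    ∃ (t : ℤ) (u : ℤ × ℤ), v'.1 = t * v.1 + g * u.1 ∧ v'.2 = t * v.2 + g * u.2 := by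
  obtain ⟨A, B, C⟩ := Q
  unfold dt at hk
  unfold val at h
  simp only at h
  refine ⟨q * (A * v.1 + B * v.2) * v'.1 + q * C * v.2 * v'.2,
    (r * d * v'.1 - q * C * v.2 * k, r * d * v'.2 + q * (A * v.1 + B * v.2) * k), ?_, ?_⟩
  · simp only
    rw [hf] at h
    linear_combination (-v'.1) * h - q * C * v.2 * hk
  · simp only
    rw [hf] at h
    linear_combination (-v'.2) * h + q * (A * v.1 + B * v.2) * hk

/-- (DE2) the classes of two vectors differ by an element of `H d`: sufficient condition. -/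
theorem pf_DE2 : T_DE2 := by
  intro D K _ _ σ Q I α β b f G _ cl hFB hf hRG d hd c v v' hv hv' hU hU' hdt
  have hobc := hFB.ob c
  have hn := hFB.nrm c v hv
  have hn' := hFB.nrm c v' hv'
  have hs := hFB.spn c v hv
  have hs' := hFB.spn c v' hv'
  obtain ⟨N, hN⟩ : ∃ N, N = Ideal.absNorm (b c v : Ideal (𝓞 K)) := ⟨_, rfl⟩
  obtain ⟨N', hN'⟩ : ∃ N, N = Ideal.absNorm (b c v' : Ideal (𝓞 K)) := ⟨_, rfl⟩
  have hN1 : 1 ≤ N := by
    rw [hN]
    exact Ideal.absNorm_pos_of_nonZeroDivisors (b c v)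
  have hN1' : 1 ≤ N' := by
    rw [hN']
    exact Ideal.absNorm_pos_of_nonZeroDivisors (b c v')
  rw [← hN] at hn
  rw [← hN'] at hn'
  unfold Un at hU hU'
  rw [← hn] at hU
  rw [← hn'] at hU'
  have hNf : N.Coprime f := Nat.isCoprime_iff_coprime.1 hU
  have hNf' : N'.Coprime f := Nat.isCoprime_iff_coprime.1 hU'
  have hprB : Pr K f (b c v : Ideal (𝓞 K)) := pr_of_norm hN.symm hN1 hNf
  have hprB' : Pr K f (b c v' : Ideal (𝓞 K)) := pr_of_norm hN'.symm hN1' hNf'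
  have hI0 : (I c : Ideal (𝓞 K)) ≠ 0 := nonZeroDivisors.coe_ne_zero (I c)
  have he0 : (v.1 : 𝓞 K) * α c + (v.2 : 𝓞 K) * β c ≠ 0 := fun h0 => hv (hobc.inj v h0)
  -- multiples
  have hex : ∀ u : ℤ × ℤ, ∃ x : 𝓞 K, (N : 𝓞 K) * ((u.1 : 𝓞 K) * α c + (u.2 : 𝓞 K) * β c) =
      ((v.1 : 𝓞 K) * α c + (v.2 : 𝓞 K) * β c) * x := by
    intro u
    have h1 : (b c v : Ideal (𝓞 K)) ∣ Ideal.span {(N : 𝓞 K)} := by
      rw [Ideal.dvd_span_singleton, hN]
      exact Ideal.absNorm_mem _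
    obtain ⟨Bs, hBs⟩ := h1
    have h2 : (N : 𝓞 K) * ((u.1 : 𝓞 K) * α c + (u.2 : 𝓞 K) * β c) ∈
        Ideal.span {(N : 𝓞 K)} * (I c : Ideal (𝓞 K)) :=
      Ideal.mul_mem_mul (Ideal.mem_span_singleton_self _) ((hobc.mem _).2 ⟨u, rfl⟩)
    rw [hBs, mul_comm (b c v : Ideal (𝓞 K)) Bs, mul_assoc, ← hs] at h2
    exact Ideal.mem_span_singleton.1 (Ideal.mul_le_right h2)
  obtain ⟨a, ha⟩ := hex v'
  have hideal : Ideal.span {a} * (b c v : Ideal (𝓞 K)) =
      Ideal.span {(N : 𝓞 K)} * (b c v' : Ideal (𝓞 K)) := by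
    apply mul_right_cancel₀ hI0
    rw [mul_assoc, ← hs, mul_assoc, ← hs', Ideal.span_singleton_mul_span_singleton,
      Ideal.span_singleton_mul_span_singleton, ha, mul_comm a]
  have hprN : Pr K f (Ideal.span {(N : 𝓞 K)}) := pr_nat hN1 hNf
  have hpra : Pr K f (Ideal.span {a}) := by
    have h1 : Pr K f (Ideal.span {a} * (b c v : Ideal (𝓞 K))) := by
      rw [hideal]
      exact pr_mul.2 ⟨hprN, hprB'⟩
    exact (pr_mul.1 h1).1
  refine ⟨a, ⟨hpra, ?_⟩, ?_⟩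
  · obtain ⟨q, r, hqr⟩ := hU
    obtain ⟨k, hk⟩ := hdt
    have hfd0 : f = f / d * d := (Nat.div_mul_cancel hd).symm
    obtain ⟨g, hg⟩ : ∃ g, g = f / d := ⟨_, rfl⟩
    rw [← hg] at hfd0 hk ⊢
    have hfd : (f : ℤ) = (g : ℤ) * (d : ℤ) := by
      rw [hfd0, Nat.cast_mul]
    rw [hn] at hqr
    obtain ⟨t, u, h1, h2⟩ := prop_mod hqr hfd hk
    obtain ⟨x, hx⟩ := hex u
    refine ⟨t * N, ?_⟩
    rw [mem_fspan]
    refine ⟨x, ?_⟩
    apply mul_left_cancel₀ he0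
    have h1' : (v'.1 : 𝓞 K) = (t : 𝓞 K) * v.1 + (g : 𝓞 K) * u.1 := by
      rw [h1, Int.cast_add, Int.cast_mul, Int.cast_mul, Int.cast_natCast]
    have h2' : (v'.2 : 𝓞 K) = (t : 𝓞 K) * v.2 + (g : 𝓞 K) * u.2 := by
      rw [h2, Int.cast_add, Int.cast_mul, Int.cast_mul, Int.cast_natCast]
    rw [h1', h2'] at ha
    rw [Int.cast_mul, Int.cast_natCast]
    linear_combination (-1 : 𝓞 K) * ha + (g : 𝓞 K) * hx
  · have h1 := congrArg cl hideal
    rw [hRG.mul _ _ hpra hprB, hRG.mul _ _ hprN hprB', cl_rat hRG (rat_nat hN1 hNf), one_mul] at h1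
    rw [← h1, mul_comm (cl (Ideal.span {a})), inv_mul_cancel_left]

end Pool.Agent.H21.CF
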