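import Pool.Agent.H95.CF.Targets
import Pool.Agent.H37.CF.Basic

/-!
# Row PNCU of the board `cfm_modules`: sums of primitive characters over the classes
-/

set_option autoImplicit false

open NumberField Module MeasureTheory Set Filter
open scoped nonZeroDivisors Real

namespace Pool.Agent.H21.CF

open Pool.Agent.H31.CN Pool.Agent.H95.CF Pool.Agent.H37.CF

theorem hd_one {K : Type} [Field K] [NumberField K] {f : ℕ} {G : Type} [CommGroup G]
    {cl : Ideal (𝓞 K) → G} (h : RG K f G cl) (g : G) : g ∈ Hd K f cl 1 ↔ g = 1 := by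
  constructor
  · rintro ⟨a, ha, rfl⟩
    rw [Nat.div_one] at ha
    exact cl_rat h ha
  · rintro rfl
    refine ⟨1, rat_one, ?_⟩
    rw [Ideal.span_singleton_one, cl_top h]

/-- the arithmetic of the invariance -/
theorem dt_inv {Q : QF} {v w u : ℤ × ℤ} {f p g : ℤ} (hfg : f = g * p) (hp : Prime p)
    (hv : IsCoprime v.1 v.2) (hvv : IsCoprime (val Q v) f) (hu : p ∣ val Q u)
    (hvu : f ∣ dt v u) (hvw : g ∣ dt v w) : f ∣ dt w u := by
  obtain ⟨A, B, C⟩ := Q
  obtain ⟨v1, v2⟩ := v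
  obtain ⟨w1, w2⟩ := w
  obtain ⟨u1, u2⟩ := u
  simp only at hv
  unfold dt at *
  unfold val at *
  simp only at *
  obtain ⟨x, y, hxy⟩ := hv
  obtain ⟨k, hk⟩ := hvu
  obtain ⟨m, hm⟩ := hvw
  have e1 : u1 = (x * u1 + y * u2) * v1 - y * (f * k) := by
    linear_combination (-u1) * hxy - y * hk
  have e2 : u2 = (x * u1 + y * u2) * v2 + x * (f * k) := by
    linear_combination (-u2) * hxy + x * hk
  have hpt : p ∣ x * u1 + y * u2 := by
    have h1 : p ∣ (x * u1 + y * u2) ^ 2 * (A * v1 ^ 2 + B * v1 * v2 + C * v2 ^ 2) := by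
      have h2 : (x * u1 + y * u2) ^ 2 * (A * v1 ^ 2 + B * v1 * v2 + C * v2 ^ 2) =
          (A * u1 ^ 2 + B * u1 * u2 + C * u2 ^ 2) + p * (g * k * (A * y * (u1 + (x * u1 + y * u2) * v1) +
            B * (y * u2 - (x * u1 + y * u2) * v1 * x) - C * x * (u2 + (x * u1 + y * u2) * v2))) := by
        rw [hfg] at e1 e2
        obtain ⟨t, ht⟩ : ∃ t, t = x * u1 + y * u2 := ⟨_, rfl⟩
        rw [← ht] at e1 e2 ⊢
        have e3 : t * v1 = u1 + y * (g * p * k) := by linarith
        have e4 : t * v2 = u2 - x * (g * p * k) := by linarith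
        have e5 : t ^ 2 * (A * v1 ^ 2 + B * v1 * v2 + C * v2 ^ 2) =
          A * (t * v1) ^ 2 + B * (t * v1) * (t * v2) + C * (t * v2) ^ 2 := by ring
        rw [e5, e3, e4]
        ring
      rw [h2]
      exact dvd_add hu (dvd_mul_right _ _)
    rcases hp.dvd_or_dvd h1 with h3 | h3
    · exact hp.dvd_of_dvd_pow h3
    · exfalso
      obtain ⟨q, r, hqr⟩ := hvv
      apply hp.not_isUnit
      rw [isUnit_iff_dvd_one, ← hqr]
      exact dvd_add (h3.mul_left q) ((hfg ▸ dvd_mul_left p g).mul_left r)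
  obtain ⟨t, ht⟩ := hpt
  rw [ht] at e1 e2
  rw [hfg] at e1 e2 hk ⊢
  have hp0 : p ≠ 0 := hp.ne_zero
  -- u = p u'
  obtain ⟨u1', hu1⟩ : ∃ u', u1 = p * u' := ⟨t * v1 - y * (g * k), by rw [e1]; ring⟩
  obtain ⟨u2', hu2⟩ : ∃ u', u2 = p * u' := ⟨t * v2 + x * (g * k), by rw [e2]; ring⟩
  have h5 : v1 * u2' - v2 * u1' = g * k := by
    apply mul_left_cancel₀ hp0
    rw [hu1, hu2] at hk
    linear_combination hk
  refine ⟨(x * w1 + y * w2) * k - y * m * u2' - x * m * u1', ?_⟩
  rw [hu1, hu2]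
  linear_combination (-(p * (w1 * u2' - w2 * u1'))) * hxy + p * (x * w1 + y * w2) * h5 -
    p * (y * u2' + x * u1') * hm

open Classical in
/-- (NCU) the sum of a primitive character over the classes whose lattice contains `u`. -/
theorem pf_NCU (hDE1 : T_DE1) (hDE2 : T_DE2) : T_NCU := by
  intro D K _ _ σ Q I α β b f G _ _ cl C V φ hD hfin hdis hFB hf hRG hRV hprim c u hu
  have hV0 : ∀ g, V g ≠ 0 := by
    intro g h0
    have h1 := hRV.cop g
    rw [h0] at h1
    exact not_isCoprime_zero_zero h1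
  have hf0 : f ≠ 0 := by omega
  by_cases hU : Un f (Q c) u
  · rw [if_pos hU]
    have key : ∀ g, (C g = c ∧ (f : ℤ) ∣ dt (V g) u) ↔ g = cl (b c u) := by
      intro g
      constructor
      · rintro ⟨h1, h2⟩
        have h3 := hRV.un g
        have h4 := hRV.cl g
        rw [h1] at h3 h4
        have h5 := hDE2 D K σ Q I α β b f G cl hFB hf hRG 1 (one_dvd _) c (V g) u (hV0 g) hu h3 hU
          (by rwa [Nat.div_one])
        rw [h4, hd_one hRG, inv_mul_eq_one] at h5
        exact h5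
      · intro hg
        have h5 := hDE1 D K σ Q I α β b f G cl hD hfin hdis hFB hf hRG 1 (one_dvd _) (C g) c
          (V g) u (hV0 g) hu (hRV.un g) hU (by
            rw [hRV.cl g, ← hg, inv_mul_cancel, hd_one hRG])
        rw [Nat.div_one] at h5
        exact h5
    rw [Finset.sum_congr rfl (g := fun g => if g = cl (b c u) then ((φ g : ℂˣ) : ℂ) else 0)]
    · rw [Finset.sum_ite_eq' Finset.univ (cl (b c u)), if_pos (Finset.mem_univ _)]
    · intro g _
      exact if_congr (key g) rfl rfl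
  · rw [if_neg hU]
    obtain ⟨p, hp, hpd⟩ : ∃ p : ℕ, p.Prime ∧ p ∣ Int.gcd (val (Q c) u) (f : ℤ) := by
      apply Nat.exists_prime_and_dvd
      intro h
      exact hU (Int.isCoprime_iff_gcd_eq_one.2 h)
    have hp1 : (p : ℤ) ∣ val (Q c) u :=
      (Int.natCast_dvd_natCast.2 hpd).trans (Int.gcd_dvd_left _ _)
    have hp2 : p ∣ f := by
      have := (Int.natCast_dvd_natCast.2 hpd).trans (Int.gcd_dvd_right _ _)
      exact_mod_cast this
    obtain ⟨h, hh, hφ⟩ := hprim p hp hp2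
    set s : Finset G := Finset.univ.filter (fun g => C g = c ∧ (f : ℤ) ∣ dt (V g) u) with hs
    rw [← Finset.sum_filter, ← hs]
    have hmap : ∀ g ∈ s, g * h ∈ s := by
      intro g hg
      rw [hs, Finset.mem_filter] at hg ⊢
      obtain ⟨-, h1, h2⟩ := hg
      refine ⟨Finset.mem_univ _, ?_⟩
      obtain ⟨h3, h4⟩ := hDE1 D K σ Q I α β b f G cl hD hfin hdis hFB hf hRG p hp2 (C g) (C (g * h))
        (V g) (V (g * h)) (hV0 _) (hV0 _) (hRV.un _) (hRV.un _) (by
          rw [hRV.cl, hRV.cl, inv_mul_cancel_left]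
          exact hh)
      refine ⟨by rw [← h3, h1], ?_⟩
      have h5 := hRV.un g
      rw [h1] at h5
      have hfp : (f : ℤ) = ((f / p : ℕ) : ℤ) * (p : ℤ) := by
        rw [← Nat.cast_mul, Nat.div_mul_cancel hp2]
      exact dt_inv hfp (Nat.prime_iff_prime_int.1 hp) (hRV.cop g) h5 hp1 h2 h4
    have himg : s.image (fun g => g * h) = s := by
      apply Finset.eq_of_subset_of_card_le
      · intro x hx
        obtain ⟨g, hg, rfl⟩ := Finset.mem_image.1 hx
        exact hmap g hg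
      · rw [Finset.card_image_of_injective _ (mul_left_injective h)]
    have hsum : ∑ g ∈ s, ((φ g : ℂˣ) : ℂ) = (∑ g ∈ s, ((φ g : ℂˣ) : ℂ)) * ((φ h : ℂˣ) : ℂ) := by
      conv_lhs => rw [← himg]
      rw [Finset.sum_image fun x _ y _ hxy => mul_left_injective h hxy, Finset.sum_mul]
      refine Finset.sum_congr rfl fun g _ => ?_
      rw [map_mul, Units.val_mul]
    have hφ' : ((φ h : ℂˣ) : ℂ) - 1 ≠ 0 := by
      intro h0
      apply hφ
      apply Units.ext
      rw [Units.val_one]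
      exact sub_eq_zero.1 h0
    have h6 : (∑ g ∈ s, ((φ g : ℂˣ) : ℂ)) * (((φ h : ℂˣ) : ℂ) - 1) = 0 := by
      rw [mul_sub, ← hsum, mul_one, sub_self]
    exact (mul_eq_zero.1 h6).resolve_right hφ'

end Pool.Agent.H21.CF
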